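import Pool.Agent.Q9.PiUU
import Pool.Agent.Results.MP_2e8808_al.RadicalZero
import Pool.Agent.Results.MP_64b2bf_al.InfDimIrrepF2

/-!
# The group algebras of the first Grigorchuk group in characteristic two are not π-UU
-/

set_option autoImplicit false

open Pool.Agent.Results.MP_2e8808_al.GrigorchukJacobson

namespace Pool.Agent.Results.MP_4717c3_al.GrigorchukUnit

/-- A ring is π-UU if every unit `u` has a power `u ^ i`, `i ≥ 1`, with `u ^ i - 1` nilpotent. -/
def IsPiUU (R : Type) [Ring R] : Prop :=
  ∀ u : Rˣ, ∃ i : ℕ, 1 ≤ i ∧ IsNilpotent ((u : R) ^ i - 1)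

/-- Length preserving permutations of the set of words. -/
def lenPres : Subgroup (Equiv.Perm (List Bool)) where
  carrier := {g | ∀ w, (g w).length = w.length}
  one_mem' := fun _ => rfl
  mul_mem' := by
    intro g h hg hh w
    rw [Equiv.Perm.mul_apply, hg, hh]
  inv_mem' := by
    intro g hg w
    have h1 := hg (g⁻¹ w)
    have h2 : g (g⁻¹ w) = w := g.apply_symm_apply w
    rw [h2] at h1
    exact h1.symm

lemma grig_le : Grig ≤ lenPres := by
  rw [Grig, Subgroup.closure_le]
  rintro g (rfl | rfl | rfl | rfl)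
  · exact length_fa
  · exact fun w => (length_fbcd w).1
  · exact fun w => (length_fbcd w).2.1
  · exact fun w => (length_fbcd w).2.2

/-- Words of length at most `n`. -/
abbrev X (n : ℕ) : Type := {w : List Bool // w.length ≤ n}

instance (n : ℕ) : Finite (X n) := (List.finite_length_le Bool n).to_subtype

/-- The action on the words of length at most `n`. -/
def act (n : ℕ) : Grig →* Equiv.Perm (X n) where
  toFun g := (g : Equiv.Perm (List Bool)).subtypePerm (fun w => by
    rw [grig_le g.2 w])
  map_one' := by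
    ext x; rfl
  map_mul' g h := by
    ext x; rfl

lemma act_apply (n : ℕ) (g : Grig) (w : X n) :
    ((act n g w : X n) : List Bool) = (g : Equiv.Perm (List Bool)) w := rfl

lemma sep_grig : Q9.PiUU.Sep Grig := by
  classical
  intro S
  have hex : ∀ p : Grig × Grig, ∃ w : List Bool, p.1 ≠ p.2 →
      (p.1 : Equiv.Perm (List Bool)) w ≠ (p.2 : Equiv.Perm (List Bool)) w := by
    intro p
    by_cases h : p.1 = p.2
    · exact ⟨[], fun h' => absurd h h'⟩
    · by_contra hcon
      push Not at hcon
      apply h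
      apply Subtype.ext
      ext w : 1
      exact (hcon w).2
  choose f hf using hex
  let n := (S ×ˢ S).sup fun p => (f p).length
  refine ⟨(act n).range, inferInstance, (act n).rangeRestrict, inferInstance, ?_, ?_⟩
  · exact IsPGroup.of_surjective Pool.Agent.Results.MP_64b2bf_al.InfDimIrrepF2.isPGroup _
      (MonoidHom.rangeRestrict_surjective _)
  · intro g hg h hh hgh
    by_contra hne
    have h1 : (f (g, h)).length ≤ n :=
      Finset.le_sup (f := fun p => (f p).length) (Finset.mem_product.2 ⟨hg, hh⟩ : (g, h) ∈ S ×ˢ S)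
    have h2 : act n g = act n h := congrArg Subtype.val hgh
    have h3 := congrArg (fun e : Equiv.Perm (X n) => ((e ⟨f (g, h), h1⟩ : X n) : List Bool)) h2
    exact hf (g, h) hne h3

/-- The element `a`. -/
def ga : Grig := ⟨pa, Subgroup.subset_closure (by simp)⟩

/-- The element `b`. -/
def gb : Grig := ⟨pb, Subgroup.subset_closure (by simp)⟩

lemma exists_unit_F2 : ∃ u : (MonoidAlgebra (ZMod 2) Grig)ˣ, ∀ i : ℕ, 1 ≤ i →
    ¬ IsNilpotent ((u : MonoidAlgebra (ZMod 2) Grig) ^ i - 1) := by
  apply Q9.PiUU.exists_unit sep_grig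
    ((Pool.Agent.Results.MP_2e8808_al.RadicalZero.result).1 (ZMod 2)) ga gb
  · apply Subtype.ext
    ext w : 1
    exact fa_fa w
  · intro h
    have h1 := congrArg (fun g : Grig => (g : Equiv.Perm (List Bool)) [false, false, false]) h
    have h2 : fa (fb (fa (fb [false, false, false]))) = fb (fa (fb (fa [false, false, false]))) := h1
    simp [fa, fb, fc, fd] at h2

theorem not_isPiUU (F : Type) [Field F] [CharP F 2] : ¬ IsPiUU (MonoidAlgebra F Grig) := by
  intro h
  obtain ⟨u, hu⟩ := exists_unit_F2
  let f : MonoidAlgebra (ZMod 2) Grig →+* MonoidAlgebra F Grig :=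
    MonoidAlgebra.mapRingHom Grig (ZMod.castHom (dvd_refl 2) F)
  have hf : Function.Injective f :=
    MonoidAlgebra.map_injective _ (ZMod.castHom (dvd_refl 2) F).injective
  obtain ⟨i, hi, hnil⟩ := h (Units.map f.toMonoidHom u)
  apply hu i hi
  have h1 : ((Units.map f.toMonoidHom u : (MonoidAlgebra F Grig)ˣ) : MonoidAlgebra F Grig) ^ i - 1 =
      f ((u : MonoidAlgebra (ZMod 2) Grig) ^ i - 1) := by
    rw [map_sub, map_pow, map_one]
    rfl
  rw [h1] at hnil
  exact (IsNilpotent.map_iff hf).1 hnil

/-- The first Grigorchuk group is a torsion group, and its group algebra over every field of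
characteristic two is not π-UU. In particular the answer to the question is negative. -/
theorem result : (∀ g : Grig, IsOfFinOrder g) ∧
    (∀ (F : Type) [Field F] [CharP F 2], ¬ IsPiUU (MonoidAlgebra F Grig)) ∧
    ¬ (∀ (p : ℕ) [Fact p.Prime] (F : Type) [Field F] [CharP F p],
      (∀ x : F, x ≠ 0 → ∃ n : ℕ, 0 < n ∧ x ^ n = 1) → ∀ (G : Type) [Group G],
      (∀ g : G, IsOfFinOrder g) → IsPiUU (MonoidAlgebra F G)) := by
  have htors : ∀ g : Grig, IsOfFinOrder g := by
    intro g
    obtain ⟨k, hk⟩ := Pool.Agent.Results.MP_64b2bf_al.InfDimIrrepF2.isPGroup g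
    exact isOfFinOrder_iff_pow_eq_one.2 ⟨2 ^ k, by positivity, hk⟩
  refine ⟨htors, fun F _ _ => not_isPiUU F, fun h => ?_⟩
  refine not_isPiUU (ZMod 2) (h 2 (ZMod 2) ?_ Grig htors)
  intro x hx
  refine ⟨1, one_pos, ?_⟩
  revert hx x
  decide

end Pool.Agent.Results.MP_4717c3_al.GrigorchukUnit
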